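import Pool.Agent.N343.AS.Stm

/-!
# Project AS: GEN, representation of the generic points (helper67)
-/

set_option autoImplicit false

open Filter Topology MeasureTheory Finset

namespace Pool.Agent.N67.AS.GEN

open Pool.Agent.N343.AS

theorem Zpos (N : ℕ) : 0 < Z N := by unfold Z; positivity

theorem E_succ (N : ℕ) : E (N + 1) = E N + (Q N + N + L N) := by
  have h : E (N + 1) = 2 * E N + Q N + 3 * N + 12 := rfl
  rw [h]; unfold L; omega

theorem le_E (N : ℕ) : N ≤ E N := by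
  induction N with
  | zero => exact Nat.zero_le _
  | succ n ih => rw [E_succ]; unfold L; omega

theorem Z_succ (N : ℕ) : Z N = 2 ^ (Q N + N + L N) * Z (N + 1) := by
  unfold Z
  rw [E_succ, pow_add (1 / 2 : ℝ) (E N)]
  have h : (2 : ℝ) ^ (Q N + N + L N) * (1 / 2) ^ (Q N + N + L N) = 1 := by
    rw [← mul_pow]; norm_num
  calc (1 / 2 : ℝ) ^ E N = (1 / 2 : ℝ) ^ E N * (2 ^ (Q N + N + L N) * (1 / 2) ^ (Q N + N + L N)) := by
        rw [h, mul_one]
    _ = _ := by ring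

theorem Q_mono : Monotone Q := monotone_nat_of_le_succ fun n => by
  have h : Q (n + 1) = Q n + (n + 5) := rfl
  omega

theorem Z_mult (N : ℕ) : ∃ z : ℤ, Z N = z * Z (N + 1) :=
  ⟨2 ^ (Q N + N + L N), by rw [Z_succ]; push_cast; ring⟩

theorem sh_mult (N i : ℕ) (h : i ≤ N) : ∃ z : ℤ, sh i * Z N = z * Z (N + 1) := by
  refine ⟨2 ^ (i + 2) * 2 ^ (Q N - Q i + N + L N), ?_⟩
  have hQ := Q_mono h
  have h1 : Q N + N + L N = Q i + (Q N - Q i + N + L N) := by omega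
  rw [Z_succ, h1, pow_add (2 : ℝ) (Q i)]
  unfold sh
  push_cast
  have h2 : (2 : ℝ) ^ (Q i) ≠ 0 := by positivity
  field_simp

/-- the invariant -/
def Inv (x : ℝ) (N i : ℕ) (a b : ℝ) : Prop :=
  i ≤ N ∧ Good N i a ∧ (∃ z : ℤ, a - x = z * Z (N + 1)) ∧ |b| ≤ 2 ^ (L N) - 2

theorem one_le_L (N : ℕ) : (1 : ℝ) ≤ 2 ^ (L N) - 2 := by
  have h : (2 : ℝ) ^ 2 ≤ 2 ^ (L N) := pow_le_pow_right₀ (by norm_num) (by unfold L; omega)
  linarith

theorem step (hS : S_STEP) (hH : S_SHI) (hJ : S_JGO) (x : ℝ) (N i : ℕ) (a b : ℝ)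
    (h : Inv x N i a b) : ∃ (S : Finset (T N)) (j : ℤ) (i' : ℕ), |j| ≤ 2 ^ (N + L N) ∧
      Inv x (N + 1) i' (a - ∑ t ∈ S, cT N t - j * Z (N + 1)) (b - j * (1 / 2) ^ N) ∧
      |b - j * (1 / 2) ^ N| ≤ (1 / 2) ^ i ∧ i ≤ i' ∧
      (Int.fract (x * 2 ^ (E (N + 1))) ∈ Set.Ioo (ul (i + 1)) (ur (i + 1)) → i' = i + 1) := by
  obtain ⟨hi, hG, ⟨z, hz⟩, hb⟩ := h
  have hZ := Zpos (N + 1)
  have hfl : a - ⌊a / Z (N + 1)⌋ * Z (N + 1) = x - ⌊x / Z (N + 1)⌋ * Z (N + 1) := by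
    have h1 : a / Z (N + 1) = x / Z (N + 1) + z := by
      have : a = x + z * Z (N + 1) := by linarith
      rw [this]; field_simp
    rw [h1, Int.floor_add_intCast]
    push_cast
    linarith
  have hx0 : 0 ≤ x - ⌊x / Z (N + 1)⌋ * Z (N + 1) := by
    have := Int.floor_le (x / Z (N + 1))
    rw [le_div_iff₀ hZ] at this
    linarith
  have hx1 : x - ⌊x / Z (N + 1)⌋ * Z (N + 1) < Z (N + 1) := by
    have := Int.lt_floor_add_one (x / Z (N + 1))
    rw [div_lt_iff₀ hZ] at this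
    linarith
  have habs : ∀ t : ℝ, -(1 / 2) ^ i ≤ t → t ≤ 0 → |t| ≤ (1 / 2) ^ i := by
    intro t h1 h2
    rw [abs_le]
    have : (0 : ℝ) ≤ (1 / 2) ^ i := by positivity
    exact ⟨h1, h2.trans this⟩
  have hle1 : ((1 : ℝ) / 2) ^ i ≤ 1 := pow_le_one₀ (by norm_num) (by norm_num)
  by_cases hc : Int.fract (x * 2 ^ (E (N + 1))) ∈ Set.Ioo (ul (i + 1)) (ur (i + 1))
  · obtain ⟨S, j, h1, h2, h3, h4⟩ := hS N i a b hi hG hb 0 (by norm_num)
    refine ⟨S, j, i + 1, h1, ⟨by omega, ?_, ?_, ?_⟩, habs _ h2 h3, by omega, fun _ => rfl⟩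
    · rw [h4, hfl]
      simp only [Int.cast_zero, zero_mul, add_zero]
      exact (hJ (i + 1)).2.2.2 (N + 1) x hc
    · obtain ⟨w, hw⟩ := Z_mult (N + 1)
      refine ⟨-⌊x / Z (N + 1)⌋ * w, ?_⟩
      rw [h4, hfl]
      push_cast
      linear_combination (-(⌊x / Z (N + 1)⌋ : ℝ)) * hw
    · exact (habs _ h2 h3).trans (hle1.trans (one_le_L _))
  · obtain ⟨σ, hσ, hσ2⟩ := hH (N + 1) i _ hx0 hx1
    obtain ⟨S, j, h1, h2, h3, h4⟩ := hS N i a b hi hG hb σ hσ
    refine ⟨S, j, i, h1, ⟨by omega, ?_, ?_, ?_⟩, habs _ h2 h3, le_refl _, fun h => absurd h hc⟩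
    · rw [h4, hfl]
      exact hσ2
    · obtain ⟨w, hw⟩ := Z_mult (N + 1)
      obtain ⟨w', hw'⟩ := sh_mult (N + 1) i (by omega)
      refine ⟨-⌊x / Z (N + 1)⌋ * w + σ * w', ?_⟩
      rw [h4, hfl]
      push_cast
      linear_combination (-(⌊x / Z (N + 1)⌋ : ℝ)) * hw + (σ : ℝ) * hw'
    · exact (habs _ h2 h3).trans (hle1.trans (one_le_L _))

theorem j_bound (N : ℕ) : (2 : ℤ) ^ (N + L N) ≤ (((N + 1) * 2 ^ (E (N + 1)) : ℕ) : ℤ) := by
  have h1 : 2 ^ (N + L N) ≤ (N + 1) * 2 ^ (E (N + 1)) := by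
    calc 2 ^ (N + L N) ≤ 2 ^ (E (N + 1)) := Nat.pow_le_pow_right (by norm_num) (by rw [E_succ]; omega)
      _ ≤ (N + 1) * 2 ^ (E (N + 1)) := Nat.le_mul_of_pos_left _ (by omega)
  exact_mod_cast h1

theorem main (hS : S_STEP) (hH : S_SHI) (hJ : S_JGO) : S_GEN := by
  intro M hM x hx y
  -- the start
  obtain ⟨n0, hn0⟩ := exists_nat_ge (1 + |x| + |y|)
  obtain ⟨N1, hN1, hfr⟩ := (hx 0).forall_exists_of_atTop (n0 + 1)
  obtain ⟨n1, rfl⟩ : ∃ n1, N1 = n1 + 1 := ⟨N1 - 1, by omega⟩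
  have hn1 : 1 + |x| + |y| ≤ (n1 : ℝ) := by
    refine hn0.trans ?_
    exact_mod_cast (by omega : n0 ≤ n1)
  have hZ := Zpos (n1 + 1)
  set j0 : ℤ := ⌊x / Z (n1 + 1)⌋ with hj0
  set P : ℝ := 2 ^ (E (n1 + 1)) with hP
  have hP1 : 1 ≤ P := one_le_pow₀ (by norm_num)
  have hxZ : x / Z (n1 + 1) = x * P := by
    unfold Z
    rw [hP, div_eq_mul_inv]
    congr 1
    rw [← inv_pow]
    norm_num
  have hj0abs : |(j0 : ℝ)| ≤ |x| * P + 1 := by
    have h1 := Int.floor_le (x / Z (n1 + 1))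
    have h2 := Int.lt_floor_add_one (x / Z (n1 + 1))
    rw [← hj0, hxZ] at h1 h2
    have h3 : |x * P| = |x| * P := by rw [abs_mul, abs_of_nonneg (by linarith : (0 : ℝ) ≤ P)]
    have h4 := abs_le.1 (le_of_eq h3)
    rw [abs_le]
    constructor <;> linarith [h4.1, h4.2]
  have hx0 := abs_nonneg x
  have hy0 := abs_nonneg y
  have hj0b : |j0| ≤ (M n1 : ℤ) := by
    have h1 : |(j0 : ℝ)| ≤ ((n1 + 1 : ℕ) : ℝ) * P := by
      push_cast
      nlinarith
    have h2 : |j0| ≤ (((n1 + 1) * 2 ^ (E (n1 + 1)) : ℕ) : ℤ) := by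
      have : ((|j0| : ℤ) : ℝ) ≤ (((((n1 + 1) * 2 ^ (E (n1 + 1)) : ℕ) : ℤ)) : ℝ) := by
        push_cast
        push_cast at h1
        rw [← hP]
        exact h1
      exact_mod_cast this
    refine h2.trans ?_
    exact_mod_cast hM n1
  set a0 : ℝ := x - j0 * Z (n1 + 1) with ha0
  set b0 : ℝ := y - j0 * (1 / 2) ^ n1 with hb0
  have hInv0 : Inv x (n1 + 1) 0 a0 b0 := by
    refine ⟨Nat.zero_le _, (hJ 0).2.2.2 (n1 + 1) x hfr, ?_, ?_⟩
    · obtain ⟨w, hw⟩ := Z_mult (n1 + 1)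
      refine ⟨-j0 * w, ?_⟩
      push_cast
      rw [mul_assoc, ← hw, ha0]
      ring
    · have h1 : |b0| ≤ |y| + (|x| * P + 1) := by
        rw [hb0]
        refine (abs_sub _ _).trans ?_
        have h2 : |(j0 : ℝ) * (1 / 2) ^ n1| ≤ |(j0 : ℝ)| := by
          rw [abs_mul, abs_of_nonneg (by positivity : (0 : ℝ) ≤ (1 / 2) ^ n1)]
          exact mul_le_of_le_one_right (abs_nonneg _) (pow_le_one₀ (by norm_num) (by norm_num))
        linarith
      have h3 : (2 : ℝ) ^ (L (n1 + 1)) = P * 2 ^ (2 * (n1 + 1) + 12) := by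
        rw [hP, ← pow_add]
        congr 1
      have h4 : (n1 : ℝ) + 2 ≤ 2 ^ (2 * (n1 + 1) + 12) := by
        have h5 : n1 + 2 ≤ 2 ^ (2 * (n1 + 1) + 12) := by
          calc n1 + 2 ≤ 2 * (n1 + 1) + 12 := by omega
            _ ≤ 2 ^ (2 * (n1 + 1) + 12) := Nat.lt_two_pow_self.le
        exact_mod_cast h5
      rw [h3]
      have h6 : P * ((n1 : ℝ) + 2) ≤ P * 2 ^ (2 * (n1 + 1) + 12) :=
        mul_le_mul_of_nonneg_left h4 (by linarith)
      nlinarith
  -- the recursion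
  have hstep := step hS hH hJ x
  choose! fS fj fi g1 g2 g3 g4 g5 using hstep
  let st : ℕ → ℕ × ℝ × ℝ := fun k => Nat.rec (0, a0, b0) (fun k s =>
    (fi (n1 + 1 + k) s.1 s.2.1 s.2.2,
      s.2.1 - ∑ t ∈ fS (n1 + 1 + k) s.1 s.2.1 s.2.2, cT (n1 + 1 + k) t -
        fj (n1 + 1 + k) s.1 s.2.1 s.2.2 * Z (n1 + 1 + k + 1),
      s.2.2 - fj (n1 + 1 + k) s.1 s.2.1 s.2.2 * (1 / 2) ^ (n1 + 1 + k))) k
  have st0 : st 0 = (0, a0, b0) := rfl
  have st1 : ∀ k, (st (k + 1)).1 = fi (n1 + 1 + k) (st k).1 (st k).2.1 (st k).2.2 := fun k => rfl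
  have st2 : ∀ k, (st (k + 1)).2.1 = (st k).2.1 -
      ∑ t ∈ fS (n1 + 1 + k) (st k).1 (st k).2.1 (st k).2.2, cT (n1 + 1 + k) t -
        fj (n1 + 1 + k) (st k).1 (st k).2.1 (st k).2.2 * Z (n1 + 1 + k + 1) := fun k => rfl
  have st3 : ∀ k, (st (k + 1)).2.2 = (st k).2.2 -
      fj (n1 + 1 + k) (st k).1 (st k).2.1 (st k).2.2 * (1 / 2) ^ (n1 + 1 + k) := fun k => rfl
  have hInv : ∀ k, Inv x (n1 + 1 + k) (st k).1 (st k).2.1 (st k).2.2 := by
    intro k
    induction k with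
    | zero => exact hInv0
    | succ k ih =>
      rw [st1, st2, st3]
      exact g2 _ _ _ _ ih
  -- the sequences
  let SS : ∀ N, Finset (T N) := fun N =>
    if n1 + 1 ≤ N then fS N (st (N - (n1 + 1))).1 (st (N - (n1 + 1))).2.1 (st (N - (n1 + 1))).2.2 else ∅
  let jj : ℕ → ℤ := fun N =>
    if n1 + 1 ≤ N then fj N (st (N - (n1 + 1))).1 (st (N - (n1 + 1))).2.1 (st (N - (n1 + 1))).2.2
    else if N = n1 then j0 else 0
  have hSS : ∀ k, SS (n1 + 1 + k) = fS (n1 + 1 + k) (st k).1 (st k).2.1 (st k).2.2 := by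
    intro k
    simp only [SS]
    rw [if_pos (by omega), Nat.add_sub_cancel_left]
  have hjj : ∀ k, jj (n1 + 1 + k) = fj (n1 + 1 + k) (st k).1 (st k).2.1 (st k).2.2 := by
    intro k
    simp only [jj]
    rw [if_pos (by omega), Nat.add_sub_cancel_left]
  have hSS0 : ∀ N, N < n1 + 1 → SS N = ∅ := by
    intro N hN
    simp only [SS]
    rw [if_neg (by omega)]
  have hjj0 : ∀ N, N < n1 → jj N = 0 := by
    intro N hN
    simp only [jj]
    rw [if_neg (by omega), if_neg (by omega)]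
  have hjj1 : jj n1 = j0 := by
    simp only [jj]
    rw [if_neg (by omega)]
    simp
  -- the sums
  have hsumx : ∀ k, ∑ N ∈ range (n1 + 1 + k), (∑ t ∈ SS N, cT N t + (jj N : ℝ) * Z (N + 1)) =
      x - (st k).2.1 := by
    intro k
    induction k with
    | zero =>
      rw [add_zero, sum_range_succ, hSS0 n1 (by omega), hjj1, sum_empty, st0, sum_eq_zero]
      · rw [ha0]; ring
      · intro N hN
        rw [mem_range] at hN
        rw [hSS0 N (by omega), hjj0 N hN]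
        simp
    | succ k ih =>
      rw [← add_assoc, sum_range_succ, ih, hSS, hjj, st2]
      ring
  have hsumy : ∀ k, ∑ N ∈ range (n1 + 1 + k), (jj N : ℝ) * (1 / 2) ^ N = y - (st k).2.2 := by
    intro k
    induction k with
    | zero =>
      rw [add_zero, sum_range_succ, hjj1, st0, sum_eq_zero]
      · rw [hb0]; ring
      · intro N hN
        rw [mem_range] at hN
        rw [hjj0 N hN]
        simp
    | succ k ih =>
      rw [← add_assoc, sum_range_succ, ih, hjj, st3]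
      ring
  -- the orders
  have hmono : ∀ k, (st k).1 ≤ (st (k + 1)).1 := by
    intro k
    rw [st1]
    exact g4 _ _ _ _ (hInv k)
  have hmono' : Monotone (fun k => (st k).1) := monotone_nat_of_le_succ hmono
  have hunb : ∀ m, ∃ k, m ≤ (st k).1 := by
    intro m
    induction m with
    | zero => exact ⟨0, Nat.zero_le _⟩
    | succ m ih =>
      obtain ⟨k, hk⟩ := ih
      obtain ⟨N, hN, hfrN⟩ := (hx (m + 1)).forall_exists_of_atTop (n1 + 1 + k + 1)
      obtain ⟨k', rfl⟩ : ∃ k', N = n1 + 1 + k' + 1 := ⟨N - (n1 + 1) - 1, by omega⟩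
      have hkk : k ≤ k' := by omega
      have h1 : m ≤ (st k').1 := hk.trans (hmono' hkk)
      rcases Nat.lt_or_ge m (st k').1 with h2 | h2
      · exact ⟨k', h2⟩
      · have h3 : (st k').1 = m := le_antisymm h2 h1
        refine ⟨k' + 1, ?_⟩
        rw [st1, g5 _ _ _ _ (hInv k') (by rw [h3]; exact hfrN), h3]
  have htend : Tendsto (fun k => (st k).1) atTop atTop := tendsto_atTop_atTop.2 fun m => by
    obtain ⟨k, hk⟩ := hunb m
    exact ⟨k, fun k' hkk => hk.trans (hmono' hkk)⟩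
  -- limits
  have hb_lim : Tendsto (fun k => (st k).2.2) atTop (𝓝 0) := by
    rw [← tendsto_add_atTop_iff_nat 1]
    refine squeeze_zero_norm (a := fun k => (1 / 2 : ℝ) ^ (st k).1) ?_ ?_
    · intro k
      rw [st3, Real.norm_eq_abs]
      exact g3 _ _ _ _ (hInv k)
    · exact (tendsto_pow_atTop_nhds_zero_of_lt_one (by norm_num) (by norm_num)).comp htend
  have ha_lim : Tendsto (fun k => (st k).2.1) atTop (𝓝 0) := by
    refine squeeze_zero_norm (a := fun k => (1 / 2 : ℝ) ^ k) ?_ ?_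
    · intro k
      obtain ⟨-, ⟨h1, h2, -, -⟩, -, -⟩ := hInv k
      rw [Real.norm_eq_abs, abs_of_nonneg h1]
      refine h2.le.trans ?_
      unfold Z
      exact pow_le_pow_of_le_one (by norm_num) (by norm_num) ((by omega : k ≤ n1 + 1 + k).trans (le_E _))
    · exact tendsto_pow_atTop_nhds_zero_of_lt_one (by norm_num) (by norm_num)
  refine ⟨SS, jj, ?_, ?_, ?_⟩
  · intro N
    rcases Nat.lt_or_ge N (n1 + 1) with h | h
    · rcases Nat.lt_or_ge N n1 with h' | h'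
      · rw [hjj0 N h']; simp
      · have : N = n1 := by omega
        rw [this, hjj1]
        exact hj0b
    · obtain ⟨k, rfl⟩ := Nat.exists_eq_add_of_le h
      rw [hjj]
      refine (g1 _ _ _ _ (hInv k)).trans ((j_bound _).trans ?_)
      exact_mod_cast hM _
  · rw [← tendsto_add_atTop_iff_nat (n1 + 1)]
    have h1 : (fun k => ∑ N ∈ range (k + (n1 + 1)), (∑ t ∈ SS N, cT N t + (jj N : ℝ) * Z (N + 1))) =
        fun k => x - (st k).2.1 := by
      funext k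
      rw [add_comm k, hsumx]
    rw [h1]
    have := (tendsto_const_nhds (x := x)).sub ha_lim
    simpa using this
  · rw [← tendsto_add_atTop_iff_nat (n1 + 1)]
    have h1 : (fun k => ∑ N ∈ range (k + (n1 + 1)), (jj N : ℝ) * (1 / 2) ^ N) =
        fun k => y - (st k).2.2 := by
      funext k
      rw [add_comm k, hsumy]
    rw [h1]
    have := (tendsto_const_nhds (x := y)).sub hb_lim
    simpa using this

end Pool.Agent.N67.AS.GEN
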